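import Pool.Agent.Helper73.HV.St
import Pool.Agent.Helper73.HM.Base

/-! # HV module CP: the canonical cofinal subsets, with positions -/

namespace Pool.Agent.Helper76.HV

open Ordinal Cardinal ZFSet Order Pool.Agent.Helper73.HODC Pool.Agent.Helper73.HE
  Pool.Agent.Helper73.HM Pool.Agent.Helper73.HU Pool.Agent.Helper73.HV

private theorem st_bdd (x : ZFSet.{0}) (a : Ordinal.{0}) (ha : a ∈ st x) : a < x.rank := by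
  obtain ⟨z, hz, rfl⟩ := ha
  exact rank_lt_of_mem hz

private theorem otpLt_code (x : ZFSet.{0}) (b γ : Ordinal.{0}) :
    OtpLt {c | c ∈ st x ∧ c < b} (γ + 1) ↔ ∃ ζ : Ordinal.{0}, ζ ≤ γ ∧ ∃ z : ZFSet.{0},
      (∀ a, (a ∈ st x ∧ a < b) → ∃ c, fn z a = c ∧ c < ζ) ∧
      ∀ a, ∀ a', ((a ∈ st x ∧ a < b) ∧ (a' ∈ st x ∧ a' < b) ∧ a < a') →
        ∃ c, ∃ d, fn z a = c ∧ fn z a' = d ∧ c < d := by
  constructor
  · rintro ⟨ζ, hζ, g, h1, h2⟩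
    obtain ⟨z, hz, -⟩ := exists_fn g x.rank
    refine ⟨ζ, Order.lt_add_one_iff.1 hζ, z, fun a ha => ⟨_, rfl, ?_⟩, ?_⟩
    · rw [hz a (st_bdd x a ha.1)]; exact h1 a ha
    · rintro a a' ⟨ha, ha', haa⟩
      refine ⟨_, _, rfl, rfl, ?_⟩
      rw [hz a (st_bdd x a ha.1), hz a' (st_bdd x a' ha'.1)]
      exact h2 a ha a' ha' haa
  · rintro ⟨ζ, hζ, z, h1, h2⟩
    refine ⟨ζ, Order.lt_add_one_iff.2 hζ, fn z, fun a ha => ?_, fun a ha a' ha' haa => ?_⟩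
    · obtain ⟨c, hc, hc'⟩ := h1 a ha
      rw [hc]; exact hc'
    · obtain ⟨c, d, hc, hd, hcd⟩ := h2 a a' ⟨ha, ha', haa⟩
      rw [hc, hd]; exact hcd

private theorem dp_otpLt' (i j k : ℕ) :
    DP (fun v => OtpLt {c | c ∈ st (v i) ∧ c < (v j).rank} ((v k).rank + 1)) := by
  refine DP.congr (Q := fun v => ∃ ζ : Ordinal.{0}, ζ ≤ (v k).rank ∧ ∃ z : ZFSet.{0},
      (∀ a, (a ∈ st (v i) ∧ a < (v j).rank) → ∃ c, fn z a = c ∧ c < ζ) ∧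
      ∀ a, ∀ a', ((a ∈ st (v i) ∧ a < (v j).rank) ∧ (a' ∈ st (v i) ∧ a' < (v j).rank) ∧
        a < a') → ∃ c, ∃ d, fn z a = c ∧ fn z a' = d ∧ c < d) ?_
      (fun v => otpLt_code (v i) (v j).rank (v k).rank)
  refine DP.exO (Q := fun ζ v => ζ ≤ (v k).rank ∧ ∃ z : ZFSet.{0},
      (∀ a, (a ∈ st (v i) ∧ a < (v j).rank) → ∃ c, fn z a = c ∧ c < ζ) ∧
      ∀ a, ∀ a', ((a ∈ st (v i) ∧ a < (v j).rank) ∧ (a' ∈ st (v i) ∧ a' < (v j).rank) ∧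
        a < a') → ∃ c, ∃ d, fn z a = c ∧ fn z a' = d ∧ c < d) ?_
  refine (DP.rank_le 0 (k + 1)).and ?_
  refine DP.ex (Q := fun z v => (∀ a, (a ∈ st (v (i + 1)) ∧ a < (v (j + 1)).rank) →
        ∃ c, fn z a = c ∧ c < (v 0).rank) ∧
      ∀ a, ∀ a', ((a ∈ st (v (i + 1)) ∧ a < (v (j + 1)).rank) ∧
        (a' ∈ st (v (i + 1)) ∧ a' < (v (j + 1)).rank) ∧ a < a') →
        ∃ c, ∃ d, fn z a = c ∧ fn z a' = d ∧ c < d) ?_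
  refine DP.and ?_ ?_
  · refine DP.allO (Q := fun a v => (a ∈ st (v (i + 2)) ∧ a < (v (j + 2)).rank) →
        ∃ c, fn (v 0) a = c ∧ c < (v 1).rank) ?_
    refine ((DP.st 0 (i + 3)).and (DP.rank_lt 0 (j + 3))).imp ?_
    refine DP.exO (Q := fun c v => fn (v 1) (v 0).rank = c ∧ c < (v 2).rank) ?_
    exact (DP.fn 2 1 0).and (DP.rank_lt 0 3)
  · refine DP.allO (Q := fun a v => ∀ a', ((a ∈ st (v (i + 2)) ∧ a < (v (j + 2)).rank) ∧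
        (a' ∈ st (v (i + 2)) ∧ a' < (v (j + 2)).rank) ∧ a < a') →
        ∃ c, ∃ d, fn (v 0) a = c ∧ fn (v 0) a' = d ∧ c < d) ?_
    refine DP.allO (Q := fun a' v => (((v 0).rank ∈ st (v (i + 3)) ∧
        (v 0).rank < (v (j + 3)).rank) ∧ (a' ∈ st (v (i + 3)) ∧ a' < (v (j + 3)).rank) ∧
        (v 0).rank < a') → ∃ c, ∃ d, fn (v 1) (v 0).rank = c ∧ fn (v 1) a' = d ∧ c < d) ?_
    refine (((DP.st 1 (i + 4)).and (DP.rank_lt 1 (j + 4))).and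
      (((DP.st 0 (i + 4)).and (DP.rank_lt 0 (j + 4))).and (DP.rank_lt 1 0))).imp ?_
    refine DP.exO (Q := fun c v => ∃ d, fn (v 2) (v 1).rank = c ∧ fn (v 2) (v 0).rank = d ∧
      c < d) ?_
    refine DP.exO (Q := fun d v => fn (v 3) (v 2).rank = (v 0).rank ∧
      fn (v 3) (v 1).rank = d ∧ (v 0).rank < d) ?_
    exact (DP.fn 4 3 1).and ((DP.fn 4 2 0).and (DP.rank_lt 1 0))

private theorem otpLt_iff_code (x : ZFSet.{0}) (τ : Ordinal.{0}) :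
    OtpLt (st x) τ ↔ ∃ ζ : Ordinal.{0}, ζ < τ ∧ ∃ z : ZFSet.{0},
      (∀ a, a ∈ st x → ∃ c, fn z a = c ∧ c < ζ) ∧
      ∀ a, ∀ b, (a ∈ st x ∧ b ∈ st x ∧ a < b) → ∃ c, ∃ d, fn z a = c ∧ fn z b = d ∧ c < d := by
  constructor
  · rintro ⟨ζ, hζ, g, h1, h2⟩
    obtain ⟨z, hz, -⟩ := exists_fn g x.rank
    refine ⟨ζ, hζ, z, fun a ha => ⟨_, rfl, ?_⟩, ?_⟩
    · rw [hz a (st_bdd x a ha)]; exact h1 a ha
    · rintro a b ⟨ha, hb, hab⟩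
      refine ⟨_, _, rfl, rfl, ?_⟩
      rw [hz a (st_bdd x a ha), hz b (st_bdd x b hb)]
      exact h2 a ha b hb hab
  · rintro ⟨ζ, hζ, z, h1, h2⟩
    refine ⟨ζ, hζ, fn z, fun a ha => ?_, fun a ha b hb hab => ?_⟩
    · obtain ⟨c, hc, hc'⟩ := h1 a ha
      rw [hc]; exact hc'
    · obtain ⟨c, d, hc, hd, hcd⟩ := h2 a b ⟨ha, hb, hab⟩
      rw [hc, hd]; exact hcd

private theorem dp_otpLt (τ : Ordinal.{0}) (i : ℕ) : DP (fun v => OtpLt (st (v i)) τ) := by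
  refine DP.congr (Q := fun v => ∃ ζ : Ordinal.{0}, ζ < τ ∧ ∃ z : ZFSet.{0},
      (∀ a, a ∈ st (v i) → ∃ c, fn z a = c ∧ c < ζ) ∧
      ∀ a, ∀ b, (a ∈ st (v i) ∧ b ∈ st (v i) ∧ a < b) →
        ∃ c, ∃ d, fn z a = c ∧ fn z b = d ∧ c < d) ?_ (fun v => otpLt_iff_code (v i) τ)
  refine DP.exO (Q := fun ζ v => ζ < τ ∧ ∃ z : ZFSet.{0},
      (∀ a, a ∈ st (v i) → ∃ c, fn z a = c ∧ c < ζ) ∧
      ∀ a, ∀ b, (a ∈ st (v i) ∧ b ∈ st (v i) ∧ a < b) →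
        ∃ c, ∃ d, fn z a = c ∧ fn z b = d ∧ c < d) ?_
  refine (DP.rank_lt_ord 0 τ).and ?_
  refine DP.ex (Q := fun z v => (∀ a, a ∈ st (v (i + 1)) → ∃ c, fn z a = c ∧ c < (v 0).rank) ∧
      ∀ a, ∀ b, (a ∈ st (v (i + 1)) ∧ b ∈ st (v (i + 1)) ∧ a < b) →
        ∃ c, ∃ d, fn z a = c ∧ fn z b = d ∧ c < d) ?_
  refine DP.and ?_ ?_
  · refine DP.allO (Q := fun a v => a ∈ st (v (i + 2)) → ∃ c, fn (v 0) a = c ∧ c < (v 1).rank) ?_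
    refine (DP.st 0 (i + 3)).imp ?_
    refine DP.exO (Q := fun c v => fn (v 1) (v 0).rank = c ∧ c < (v 2).rank) ?_
    exact (DP.fn 2 1 0).and (DP.rank_lt 0 3)
  · refine DP.allO (Q := fun a v => ∀ b, (a ∈ st (v (i + 2)) ∧ b ∈ st (v (i + 2)) ∧ a < b) →
        ∃ c, ∃ d, fn (v 0) a = c ∧ fn (v 0) b = d ∧ c < d) ?_
    refine DP.allO (Q := fun b v => ((v 0).rank ∈ st (v (i + 3)) ∧ b ∈ st (v (i + 3)) ∧
        (v 0).rank < b) → ∃ c, ∃ d, fn (v 1) (v 0).rank = c ∧ fn (v 1) b = d ∧ c < d) ?_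
    refine ((DP.st 1 (i + 4)).and ((DP.st 0 (i + 4)).and (DP.rank_lt 1 0))).imp ?_
    refine DP.exO (Q := fun c v => ∃ d, fn (v 2) (v 1).rank = c ∧ fn (v 2) (v 0).rank = d ∧
      c < d) ?_
    refine DP.exO (Q := fun d v => fn (v 3) (v 2).rank = (v 0).rank ∧
      fn (v 3) (v 1).rank = d ∧ (v 0).rank < d) ?_
    exact (DP.fn 4 3 1).and ((DP.fn 4 2 0).and (DP.rank_lt 1 0))

private theorem dp_smallCof (τ : Ordinal.{0}) (i j : ℕ) :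
    DP (fun v => SmallCof τ (v i).rank (v j)) := by
  refine DP.and ?_ ((DP.of (dn_dfn_unbIn j i)).and (dp_otpLt τ j))
  refine DP.allO (Q := fun b v => b ∈ st (v j) → b < (v i).rank) ?_
  exact (DP.st 0 (j + 1)).imp (DP.rank_lt 0 (i + 1))

theorem cp (h1 : StEXG) (h2 : StLE) (h3 : StLD) : StCP := by
  intro μ τ hn
  have hx : ∀ a, IsSuccLimit a → a < τ → ∃ x, LeastOD τ (SmallCof (μ + 1) a) x := by
    intro a ha haτ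
    obtain ⟨γ, hγ, hreg, -, x, hx1, hx2, hx3, hx4, ζ, hζ, hg⟩ := h1 τ a ha haτ
    have hγμ : γ ≤ μ := by
      by_contra hcon
      exact hn.2.2 γ (not_le.1 hcon) (hγ.trans_lt haτ) hreg
    refine h2.2 τ _ ⟨x, hx1, hx2, hx3, hx4, ζ, ?_, hg⟩
    exact Order.lt_add_one_iff.2 ((Order.lt_add_one_iff.1 hζ).trans hγμ)
  refine ⟨fun a γ b => ∃ x, LeastOD τ (SmallCof (μ + 1) a) x ∧ b ∈ st x ∧
    OtpLt {c | c ∈ st x ∧ c < b} (γ + 1), ?_, ?_, ?_, ?_⟩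
  · refine DP.ex (Q := fun x v => LeastOD τ (SmallCof (μ + 1) (v 0).rank) x ∧
      (v 2).rank ∈ st x ∧ OtpLt {c | c ∈ st x ∧ c < (v 2).rank} ((v 1).rank + 1)) ?_
    refine DP.and ?_ ((DP.st 3 0).and (dp_otpLt' 0 3 2))
    exact h3 τ (fun x v => SmallCof (μ + 1) (v 1).rank x) (dp_smallCof (μ + 1) 2 0) 0
  · rintro a γ γ' b hγ ⟨x, hx1, hx2, ζ, hζ, hg⟩
    refine ⟨x, hx1, hx2, ζ, ?_, hg⟩
    exact Order.lt_add_one_iff.2 ((Order.lt_add_one_iff.1 hζ).trans hγ)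
  · rintro a ⟨ha, haτ⟩ γ hγ
    obtain ⟨x, hx1⟩ := hx a ha haτ
    let pos : Ordinal.{0} → Ordinal.{0} := fun b =>
      sInf {p | OtpLt {c | c ∈ st x ∧ c < b} (p + 1)}
    refine ⟨γ + 1, ?_, pos, ?_, ?_⟩
    · have h4 : (γ : Ordinal.{0}) + 2 = γ + 1 + 1 := by
        rw [add_assoc, one_add_one_eq_two]
      rw [h4]
      exact lt_add_one _
    · rintro b ⟨y, hy1, hy2, hy3⟩
      rw [h2.1 _ _ _ _ hy1 hx1] at hy3
      exact Order.lt_add_one_iff.2 (csInf_le' hy3)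
    · rintro b ⟨y, hy1, hy2, hy3⟩ b' ⟨y', hy1', hy2', hy3'⟩ hbb
      rw [h2.1 _ _ _ _ hy1 hx1] at hy2 hy3
      rw [h2.1 _ _ _ _ hy1' hx1] at hy2' hy3'
      obtain ⟨ζ, hζ, g, hg1, hg2⟩ :=
        csInf_mem (s := {p | OtpLt {c | c ∈ st x ∧ c < b'} (p + 1)}) ⟨γ, hy3'⟩
      have h5 : g b < ζ := hg1 b ⟨hy2, hbb⟩
      have h6 : pos b ≤ g b := by
        refine csInf_le' ⟨g b, lt_add_one _, g, ?_, ?_⟩
        · rintro c ⟨hc1, hc2⟩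
          exact hg2 c ⟨hc1, hc2.trans hbb⟩ b ⟨hy2, hbb⟩ hc2
        · rintro c ⟨hc1, hc2⟩ c' ⟨hc1', hc2'⟩ hcc
          exact hg2 c ⟨hc1, hc2.trans hbb⟩ c' ⟨hc1', hc2'.trans hbb⟩ hcc
      exact (h6.trans_lt h5).trans_le (Order.lt_add_one_iff.1 hζ)
  · rintro a ⟨ha, haτ⟩ β hβ
    obtain ⟨x, hx1⟩ := hx a ha haτ
    obtain ⟨h4, h5, ζ, hζ, g, hg1, hg2⟩ := hx1.1.2.2
    obtain ⟨b, hb1, hb2, hb3⟩ := h5 β hβ
    refine ⟨g b, (hg1 b hb1).trans_le (Order.lt_add_one_iff.1 hζ), b, ⟨x, hx1, hb1, g b,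
      lt_add_one _, g, ?_, ?_⟩, hb2.le, hb3⟩
    · rintro c ⟨hc1, hc2⟩
      exact hg2 c hc1 b hb1 hc2
    · rintro c ⟨hc1, hc2⟩ c' ⟨hc1', hc2'⟩ hcc
      exact hg2 c hc1 c' hc1' hcc

end Pool.Agent.Helper76.HV
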