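import Pool.Agent.Helper73.HV.St
import Pool.Agent.Helper76.HK.EXG

/-! # HV module EXG: the cofinality in HOD of a limit ordinal -/

namespace Pool.Agent.Helper76.HV

open Ordinal Cardinal ZFSet Order Pool.Agent.Helper73.HODC Pool.Agent.Helper73.HE
  Pool.Agent.Helper73.HM Pool.Agent.Helper73.HU Pool.Agent.Helper73.HV

theorem exg : StEXG := by
  intro τ a ha haτ
  obtain ⟨γ, h1, h2, h3, h4⟩ := Helper76.HK.exg a ha
  refine ⟨γ, h1, h2, h3.symm, h4 (γ + 1) τ haτ (lt_add_one γ)⟩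

end Pool.Agent.Helper76.HV
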