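import Pool.Agent.Helper73.HV.St
import Pool.Agent.Helper86.HU.ME

/-! # HV module KEY: a long definable sequence of disjoint intervals with one bound -/

namespace Pool.Agent.Helper76.HV

open Ordinal Cardinal ZFSet Order Pool.Agent.Helper73.HODC Pool.Agent.Helper73.HE
  Pool.Agent.Helper73.HM Pool.Agent.Helper73.HU Pool.Agent.Helper73.HV
  Pool.Agent.Helper86.HU.EX Pool.Agent.Helper86.HU.ME

theorem key (h0 : StEB) : StKEY := by
  intro τ μ P hτ hcof hμτ hP hmono hex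
  have hlim : IsSuccLimit τ := hτ.1
  -- `H ξ` is the least `η` with `P ξ η γ` for some `γ < μ`
  let HH : Ordinal.{0} → Set Ordinal.{0} := fun ξ => {η | ∃ γ, γ < μ ∧ P ξ η γ}
  let H : Ordinal.{0} → Ordinal.{0} := fun ξ => sInf (HH ξ)
  have hHne : ∀ ξ < τ, ∃ η < τ, η ∈ HH ξ := by
    intro ξ hξ
    obtain ⟨η, h1, γ, h2, h3⟩ := hex ξ hξ
    exact ⟨η, h1, γ, h2, h3⟩
  have hHlt : ∀ ξ < τ, H ξ < τ := by
    intro ξ hξ
    obtain ⟨η, h4, h5⟩ := hHne ξ hξ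
    exact (csInf_le' h5).trans_lt h4
  have hHmem : ∀ ξ < τ, H ξ ∈ HH ξ := by
    intro ξ hξ
    obtain ⟨η, h4, h5⟩ := hHne ξ hξ
    exact csInf_mem ⟨η, h5⟩
  have hHmono : ∀ ξ ξ', ξ ≤ ξ' → ξ' < τ → H ξ ≤ H ξ' := by
    intro ξ ξ' h4 h5
    obtain ⟨γ, h6, h7⟩ := hHmem ξ' h5
    exact csInf_le' ⟨γ, h6, hmono ξ' ξ _ _ γ γ h4 le_rfl le_rfl h7⟩
  have hdHH : DP (fun v => (v 1).rank ∈ HH (v 0).rank) := by
    refine DP.exO (Q := fun γ v => γ < μ ∧ P (v 0).rank (v 1).rank γ) ?_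
    exact (DP.rank_lt_ord 0 μ).and
      (hP.rename (fun n => if n = 0 then 1 else if n = 1 then 2 else 0))
  have hdH := dp_sInf hdHH
  -- `G ξ` is the least `γ` with `P ξ (H ξ) γ`
  let GG : Ordinal.{0} → Set Ordinal.{0} := fun ξ => {γ | P ξ (H ξ) γ}
  let G : Ordinal.{0} → Ordinal.{0} := fun ξ => sInf (GG ξ)
  have hGlt : ∀ ξ < τ, G ξ < μ := by
    intro ξ hξ
    obtain ⟨γ, h1, h2⟩ := hHmem ξ hξ
    exact (csInf_le' (s := GG ξ) h2).trans_lt h1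
  have hGmem : ∀ ξ < τ, P ξ (H ξ) (G ξ) := by
    intro ξ hξ
    obtain ⟨γ, h1, h2⟩ := hHmem ξ hξ
    exact csInf_mem (s := GG ξ) ⟨γ, h2⟩
  have hdGG : DP (fun v => (v 1).rank ∈ GG (v 0).rank) := by
    have h1 : DP (fun v => ∃ z : Ordinal.{0}, H (v 0).rank = z ∧
        P (v 0).rank z (v 1).rank) := by
      refine DP.exO (Q := fun z v => H (v 0).rank = z ∧ P (v 0).rank z (v 1).rank) ?_
      exact (hdH 1 0).and (hP.rename (fun n => if n = 0 then 1 else if n = 1 then 0 else 2))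
    refine h1.congr fun v => ?_
    constructor
    · intro h
      exact ⟨_, rfl, h⟩
    · rintro ⟨z, rfl, h⟩
      exact h
  have hdG := dp_sInf hdGG
  -- the set `E`
  let E : Set Ordinal.{0} := {β | β < τ ∧ ∀ ξ < β, H ξ < β}
  have hdE : DPs E := by
    have h4 : DP (fun v => ∀ ξ : Ordinal.{0}, ξ < (v 0).rank → ∃ z, H ξ = z ∧
        z < (v 0).rank) := by
      refine DP.allO (Q := fun ξ v => ξ < (v 0).rank → ∃ z, H ξ = z ∧ z < (v 0).rank) ?_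
      refine (DP.rank_lt 0 1).imp ?_
      refine DP.exO (Q := fun z v => H (v 0).rank = z ∧ z < (v 1).rank) ?_
      exact (hdH 1 0).and (DP.rank_lt 0 2)
    refine ((DP.rank_lt_ord 0 τ).and h4).congr fun v => ?_
    refine and_congr_right fun _ => forall_congr' fun ξ => imp_congr_right fun _ => ?_
    constructor
    · intro h
      exact ⟨_, rfl, h⟩
    · rintro ⟨z, rfl, h⟩
      exact h
  have hEu : ∀ β < τ, ∃ b ∈ E, β < b ∧ b < τ := by
    intro β hβ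
    obtain ⟨s, hs1, hs2, -, hs3⟩ := exists_lim hcof (fun x => succ (max x (H x)))
      (fun x hx => ⟨lt_succ_iff.2 (le_max_left _ _), hlim.succ_lt (max_lt hx (hHlt x hx))⟩) β hβ
    refine ⟨s, ⟨hs2, fun ξ hξ => ?_⟩, hs1, hs2⟩
    obtain ⟨x, h4, h5, h6⟩ := hs3 ξ hξ
    exact (hHmono ξ x h4.le h5).trans_lt ((lt_succ_iff.2 (le_max_right _ _)).trans h6)
  -- for some `γ < μ` the set of the `β ∈ E` with `G β ≤ γ` is unbounded
  obtain ⟨γ, hγ, hΓu⟩ : ∃ γ < μ, ∀ β < τ, ∃ b ∈ {b | b ∈ E ∧ G b ≤ γ}, β < b ∧ b < τ := by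
    by_contra hcon
    push Not at hcon
    let SS : Ordinal.{0} → Set Ordinal.{0} := fun γ => {s | ∀ b, b ∈ E → G b ≤ γ → b ≤ s}
    let s : Ordinal.{0} → Ordinal.{0} := fun γ => sInf (SS γ)
    have hSne : ∀ γ < μ, ∃ β < τ, β ∈ SS γ := by
      intro γ hγ
      obtain ⟨β, hβ, h1⟩ := hcon γ hγ
      refine ⟨β, hβ, fun b hb hb' => ?_⟩
      by_contra h2
      exact absurd hb.1 (not_lt.2 (h1 b ⟨hb, hb'⟩ (not_le.1 h2)))
    have hslt : ∀ γ < μ, s γ < τ := by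
      intro γ hγ
      obtain ⟨β, hβ, h1⟩ := hSne γ hγ
      exact (csInf_le' (s := SS γ) h1).trans_lt hβ
    have hsmem : ∀ γ < μ, s γ ∈ SS γ := by
      intro γ hγ
      obtain ⟨β, hβ, h1⟩ := hSne γ hγ
      exact csInf_mem ⟨β, h1⟩
    have hdSS : DP (fun v => (v 1).rank ∈ SS (v 0).rank) := by
      have h1 : DP (fun v => ∀ b : Ordinal.{0}, b ∈ E → (∃ z, G b = z ∧ z ≤ (v 0).rank) →
          b ≤ (v 1).rank) := by
        refine DP.allO (Q := fun b v => b ∈ E → (∃ z, G b = z ∧ z ≤ (v 0).rank) →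
          b ≤ (v 1).rank) ?_
        refine (hdE.at 0).imp (DP.imp ?_ (DP.rank_le 0 2))
        refine DP.exO (Q := fun z v => G (v 0).rank = z ∧ z ≤ (v 1).rank) ?_
        exact (hdG 1 0).and (DP.rank_le 0 2)
      refine h1.congr fun v => ?_
      refine forall_congr' fun b => imp_congr_right fun _ => ?_
      constructor
      · rintro h ⟨z, rfl, h2⟩
        exact h h2
      · intro h h2
        exact h ⟨_, rfl, h2⟩
    refine hτ.2 ⟨hlim, μ, hμτ, s, hslt, fun β hβ => ?_,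
      hod_of_dp ((DP.rank_lt_ord 0 μ).and (dp_sInf hdSS 0 1))⟩
    obtain ⟨b, hb, h1, h2⟩ := hEu β hβ
    exact ⟨G b, hGlt b h2, h1.le.trans (hsmem (G b) (hGlt b h2) b hb le_rfl)⟩
  let Γ : Set Ordinal.{0} := {b | b ∈ E ∧ G b ≤ γ}
  have hdΓ : DPs Γ := by
    have h1 : DP (fun v => ∃ z : Ordinal.{0}, G (v 0).rank = z ∧ z ≤ γ) := by
      refine DP.exO (Q := fun z v => G (v 0).rank = z ∧ z ≤ γ) ?_
      exact (hdG 1 0).and ((DP.not (DP.ord_lt_rank 0 γ)).congr fun v => not_lt.symm)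
    refine ((hdE.at 0).and h1).congr fun v => ?_
    refine and_congr_right fun _ => ?_
    constructor
    · intro h
      exact ⟨_, rfl, h⟩
    · rintro ⟨z, rfl, h⟩
      exact h
  have hEnum := h0 τ Γ hτ hdΓ hΓu
  let e : Ordinal.{0} → Ordinal.{0} := fun i => sInf {b | Enum Γ i b}
  have he : ∀ i < τ, Enum Γ i (e i) ∧ e i < τ := by
    intro i hi
    obtain ⟨b, hb, h1⟩ := hEnum i hi
    have h2 : Enum Γ i (e i) := csInf_mem (s := {b | Enum Γ i b}) ⟨b, h1⟩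
    refine ⟨h2, ?_⟩
    rw [enum_unique h2 h1]
    exact hb
  refine ⟨γ, hγ, e, dp_sInf (S := fun i => {b | Enum Γ i b}) (DP.enum hdΓ) 0 1,
    fun i hi => ⟨(he i hi).2, H (e i), hHlt _ (he i hi).2, ?_, fun j hij hj => ?_⟩⟩
  · have h1 : e i ∈ Γ := (he i hi).1.1
    exact hmono _ _ _ _ (G (e i)) γ le_rfl le_rfl h1.2 (hGmem _ (he i hi).2)
  · have h1 : e j ∈ Γ := (he j hj).1.1
    exact h1.1.2 _ (enum_lt (he i hi).1 (he j hj).1 hij)

end Pool.Agent.Helper76.HV
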