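import Pool.Agent.Helper19.HV.XS

/-!
# Project HV, module Z2
-/

set_option autoImplicit false

namespace Pool.Agent.Helper19.HV

noncomputable section

open PL

variable {F : Type} [Field F]

private theorem z2_dec {cV : V F →ₗ[ℚ] V (RatFunc F)}
    {lc : V (RatFunc F) →ₗ[ℚ] V F} {od : V (RatFunc F) →ₗ[ℚ] (F →₀ ℚ)} (hs : Spl cV lc od)
    {N : Type} [AddCommGroup N] [Module ℚ N] (f : V (RatFunc F) →ₗ[ℚ] N)
    (hc : ∀ c : F, f (lg (RatFunc.C c)) = 0) (hE : ∀ a : F, f (E a) = 0) : f = 0 := by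
  have h1 : f.comp cV = 0 := by
    have h2 : Set.EqOn (f.comp cV) (0 : V F →ₗ[ℚ] N) (Set.range (lg : F → V F)) := by
      rintro _ ⟨c, rfl⟩
      rw [LinearMap.comp_apply, hs.cV_lg, hc, LinearMap.zero_apply]
    exact LinearMap.ext_on span_lg h2
  have h3 : f.comp (Finsupp.linearCombination ℚ (E : F → V (RatFunc F))) = 0 := by
    ext a
    simp only [LinearMap.comp_apply, Finsupp.lsingle_apply, Finsupp.linearCombination_single,
      one_smul, hE, LinearMap.zero_apply]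
  refine LinearMap.ext fun v => ?_
  rw [hs.dec v, map_add]
  have h4 := LinearMap.congr_fun h1 (lc v)
  have h5 := LinearMap.congr_fun h3 (od v)
  rw [LinearMap.comp_apply, LinearMap.zero_apply] at h4 h5
  rw [h4, h5, add_zero, LinearMap.zero_apply]

private theorem z2_A {φ : F4 F} (hφ : Frm φ) (v w : V (RatFunc F)) :
    φ v v w w + φ w v v w = 0 := by
  have e0 := hφ.diag v
  have e1 := hφ.diag (v + w)
  have e2 := hφ.diag (v - w)
  have e3 := hφ.diag w
  simp only [map_add, map_sub, LinearMap.add_apply, LinearMap.sub_apply] at e1 e2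
  have a1 := hφ.s12 v v w w
  have a2 := hφ.s12 v w v w
  have a3 := hφ.s23 v v w w
  have a4 := hφ.s23 v w v w
  have b1 := hφ.s12 w v w v
  have b2 := hφ.s23 w v v w
  have b3 := hφ.s23 w v w v
  linarith

private theorem z2_B {φ : F4 F} (hφ : Frm φ) (v b c : V (RatFunc F)) :
    2 * φ v v b c + φ b v v c + φ c v v b = 0 := by
  have e0 := z2_A hφ v (b + c)
  have e1 := z2_A hφ v b
  have e2 := z2_A hφ v c
  simp only [map_add, LinearMap.add_apply] at e0
  have a1 := hφ.s23 v v b c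
  linarith

private theorem z2_dist {φ : F4 F} (hφ : Frm φ)
    (h2 : ∀ a b c p : F, a ≠ b → a ≠ c → b ≠ c → p ≠ c →
      Wf φ RatFunc.X a b c p + Wf φ RatFunc.X a b c (c + (a - c) * (b - c) / (p - c)) =
        Wf φ RatFunc.X a b c c)
    (h0 : ∀ p a b, φ (E p) (E a) (E a) (E b) = 0) {a b c : F} (hab : a ≠ b) (hac : a ≠ c)
    (hbc : b ≠ c) (p : F) : φ (E p) (E a) (E b) (E c) = 0 := by
  have hW : ∀ a b c s : F, Wf φ RatFunc.X a b c s = - φ (E s) (E a) (E b) (E c) := by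
    intro a b c s
    have h := h0 s a b
    unfold Wf
    change φ (E s) (E a) (E a) (E b) - φ (E s) (E a) (E b) (E c) = _
    rw [h, zero_sub]
  have hd : ∀ a b c : F, φ (E a) (E a) (E b) (E c) = 0 := by
    intro a b c
    have h := z2_B hφ (E a) (E b) (E c)
    rw [h0, h0] at h
    linarith
  have hGa : φ (E a) (E a) (E b) (E c) = 0 := hd a b c
  have hGb : φ (E b) (E a) (E b) (E c) = 0 := by
    rw [hφ.s12]
    exact hd b a c
  have hGc : φ (E c) (E a) (E b) (E c) = 0 := by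
    rw [hφ.s23, hφ.s12]
    exact hd c a b
  by_cases hpa : p = a
  · rw [hpa]; exact hGa
  by_cases hpb : p = b
  · rw [hpb]; exact hGb
  by_cases hpc : p = c
  · rw [hpc]; exact hGc
  have n1 : p - a ≠ 0 := sub_ne_zero.2 hpa
  have n2 : p - b ≠ 0 := sub_ne_zero.2 hpb
  have n3 : p - c ≠ 0 := sub_ne_zero.2 hpc
  have m1 : a - b ≠ 0 := sub_ne_zero.2 hab
  have m2 : a - c ≠ 0 := sub_ne_zero.2 hac
  have m3 : b - c ≠ 0 := sub_ne_zero.2 hbc
  obtain ⟨q, hq⟩ : ∃ q : F, q = c + (a - c) * (b - c) / (p - c) := ⟨_, rfl⟩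
  have hqb : q - b = -((b - c) * (p - a) / (p - c)) := by
    rw [hq]
    field_simp
    ring
  have nqb : q - b ≠ 0 := by
    rw [hqb]
    exact neg_ne_zero.2 (div_ne_zero (mul_ne_zero m3 n1) n3)
  obtain ⟨r, hr⟩ : ∃ r : F, r = b + (a - b) * (c - b) / (q - b) := ⟨_, rfl⟩
  have hra : r - a = (a - b) * (a - c) / (p - a) := by
    rw [hr, hqb]
    field_simp
    ring
  have nra : r - a ≠ 0 := by
    rw [hra]
    exact div_ne_zero (mul_ne_zero m1 m2) n1
  have hp : a + (b - a) * (c - a) / (r - a) = p := by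
    rw [hra]
    field_simp
    ring
  have k1 := h2 a b c p hab hac hbc hpc
  rw [← hq, hW, hW, hW, hGc] at k1
  have k2 := h2 a c b q hac hab hbc.symm (fun h => nqb (sub_eq_zero.2 h))
  rw [← hr, hW, hW, hW, hφ.s23 (E q) (E a) (E c) (E b), hφ.s23 (E r) (E a) (E c) (E b),
    hφ.s23 (E b) (E a) (E c) (E b), hGb] at k2
  have k3 := h2 b c a r hbc hab.symm hac.symm (fun h => nra (sub_eq_zero.2 h))
  have k4 : ∀ s : F, φ (E s) (E b) (E c) (E a) = φ (E s) (E a) (E b) (E c) := by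
    intro s
    rw [hφ.s23 (E s) (E b) (E c) (E a), hφ.s12 (E s) (E b) (E a) (E c)]
  rw [hp, hW, hW, hW, k4, k4, k4, hGa] at k3
  linarith

/-- Module Z2. -/
theorem mZ2 {F : Type} [Field F] {cV : V F →ₗ[ℚ] V (RatFunc F)}
    {lc : V (RatFunc F) →ₗ[ℚ] V F} {od : V (RatFunc F) →ₗ[ℚ] (F →₀ ℚ)} (hs : Spl cV lc od)
    {φ : F4 F} (hφ : Frm φ) (h1 : Cal φ RatFunc.X)
    (h2 : ∀ a b c p : F, a ≠ b → a ≠ c → b ≠ c → p ≠ c →
      Wf φ RatFunc.X a b c p + Wf φ RatFunc.X a b c (c + (a - c) * (b - c) / (p - c)) =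
        Wf φ RatFunc.X a b c c)
    (h0 : ∀ p a b, φ (E p) (E a) (E a) (E b) = 0) : φ = 0 := by
  have _ := h1
  have hall : ∀ p a b c : F, φ (E p) (E a) (E b) (E c) = 0 := by
    intro p a b c
    by_cases hab : a = b
    · rw [hab]
      exact h0 p b c
    by_cases hac : a = c
    · rw [← hac, hφ.s23]
      exact h0 p a b
    by_cases hbc : b = c
    · rw [← hbc, hφ.s12, hφ.s23]
      exact h0 p b a
    exact z2_dist hφ h2 h0 hab hac hbc p
  refine z2_dec hs (N := V (RatFunc F) →ₗ[ℚ] V (RatFunc F) →ₗ[ℚ] V (RatFunc F) →ₗ[ℚ] ℚ) φ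
    (fun c => ?_) (fun p => ?_)
  · exact LinearMap.ext fun x => LinearMap.ext fun y => LinearMap.ext fun z => hφ.c0 c x y z
  refine z2_dec hs (N := V (RatFunc F) →ₗ[ℚ] V (RatFunc F) →ₗ[ℚ] ℚ) (φ (E p))
    (fun c => ?_) (fun a => ?_)
  · exact LinearMap.ext fun x => LinearMap.ext fun y => hφ.c1 c (E p) x y
  refine z2_dec hs (N := V (RatFunc F) →ₗ[ℚ] ℚ) (φ (E p) (E a)) (fun c => ?_) (fun b => ?_)
  · refine LinearMap.ext fun x => ?_
    rw [hφ.s12]
    exact hφ.c1 c (E p) (E a) x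
  refine z2_dec hs (N := ℚ) (φ (E p) (E a) (E b)) (fun c => ?_) (fun c => hall p a b c)
  rw [hφ.s23, hφ.s12]
  exact hφ.c1 c (E p) (E a) (E b)

end

end Pool.Agent.Helper19.HV
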